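import Pool.Agent.W2helper38.UA.Tri

/-!
# MP_f46765_al: uniform amenability of finite groups with a law is a question about the finite
quotients of one group

The theorem:

(1) Q1 has a positive answer if and only if for each nontrivial word `w` and each `ε` in `(0,1)`
there is a number `N` such that each finite Hurwitz group `P`, i.e. `P` is generated by `x`, `y` with
`x² = y³ = (x y)⁷ = 1`, that satisfies `w` has a nonempty subset `F` with `|F| ≤ N` and
`|{1, x, y} F| ≤ (1 + ε) |F|`.

(2) The same for the finite quotients of any group `Δ` generated by a finite set `Z`, a subgroup of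
finite index of which maps onto the free group of rank two, and the images of `1` and `Z`.

Idea of the proof.  Let `S` be a set of at most `n` elements of a finite group `G` with law `w`.  A
subgroup `Λ` of finite index of `Δ` maps onto the free group of rank `n + 1`, hence to `G` with
`S` in the image; `Λ` does not depend on `G`.  Let `P` be the quotient of `Δ` by the largest normal
subgroup inside the kernel of `Λ → G`.  It is finite and satisfies `w(x₁ ^ m, …, x_k ^ m)`, `m` the
index of the normal core of `Λ`; and this is a nontrivial word which depends only on `w` and `n`.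
A Følner set of `P` for the generators is one for the lifts of the elements of `S`, of bounded length.
It is cut by the cosets of the image of `Λ` and the level sets of its image, to give one for `S` in
`G`, not larger.  The triangle group `(2,3,7)` has such a subgroup: it acts on 42 points such that `x`
has six fixed points, in three pairs, each pair in one cycle of `x y`.
-/

namespace Pool.Agent.Results.MP_f46765_al.HurwitzGroups

open scoped Pointwise

/-- The group `G` satisfies the word `w` in `k` variables: `w(g₁, …, g_k) = 1` for all `g`. -/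
def SatisfiesLaw {k : ℕ} (w : FreeGroup (Fin k)) (G : Type) [Group G] : Prop :=
  ∀ g : Fin k → G, FreeGroup.lift g w = 1

open Classical in
/-- The class `𝒞` of groups is uniformly amenable, as in the problem: for all `ε` in `(0,1)` and `n`
there is `N` such that for all `G` in `𝒞` and `S ⊆ G` with at most `n` elements there is a nonempty
finite `F ⊆ G` with `|F| ≤ N` and `|S F| ≤ (1 + ε) |F|`. -/
def UniformlyAmenable (𝒞 : (G : Type) → [Group G] → Prop) : Prop :=
  ∀ ε : ℝ, 0 < ε → ε < 1 → ∀ n : ℕ, ∃ N : ℕ, ∀ (G : Type) [Group G], 𝒞 G →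
    ∀ S : Finset G, S.card ≤ n → ∃ F : Finset G, F.Nonempty ∧ F.card ≤ N ∧
      ((S * F).card : ℝ) ≤ (1 + ε) * F.card

/-- The positive answer to Q1: for every nontrivial word `w` the class of all finite groups which
satisfy `w` is uniformly amenable. -/
def Q1 : Prop :=
  ∀ (k : ℕ) (w : FreeGroup (Fin k)), w ≠ 1 →
    UniformlyAmenable (fun G _ => Finite G ∧ SatisfiesLaw w G)

open Classical in
/-- For every nontrivial word `w` and `ε` in `(0,1)` there is `N` such that every finite group `P`
generated by elements `x`, `y` with `x² = y³ = (x y)⁷ = 1`, which satisfies `w`, has a nonempty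
subset `F` with `|F| ≤ N` and `|{1, x, y} F| ≤ (1 + ε) |F|`. -/
def FolnerHurwitz : Prop :=
  ∀ (k : ℕ) (w : FreeGroup (Fin k)), w ≠ 1 → ∀ ε : ℝ, 0 < ε → ε < 1 → ∃ N : ℕ,
    ∀ (P : Type) [Group P] [Finite P] (x y : P), x * x = 1 → y * y * y = 1 → (x * y) ^ 7 = 1 →
      Subgroup.closure {x, y} = ⊤ → SatisfiesLaw w P →
      ∃ F : Finset P, F.Nonempty ∧ F.card ≤ N ∧
        ((({1, x, y} : Finset P) * F).card : ℝ) ≤ (1 + ε) * F.card

open Classical in
/-- For every nontrivial word `w` and `ε` in `(0,1)` there is `N` such that every finite quotient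
`φ : Δ → P` of `Δ` which satisfies `w` has a nonempty subset `F` with `|F| ≤ N` and
`|({1} ∪ φ(Z)) F| ≤ (1 + ε) |F|`. -/
def FolnerQuotients (Δ : Type) [Group Δ] (Z : Finset Δ) : Prop :=
  ∀ (k : ℕ) (w : FreeGroup (Fin k)), w ≠ 1 → ∀ ε : ℝ, 0 < ε → ε < 1 → ∃ N : ℕ,
    ∀ (P : Type) [Group P] [Finite P] (φ : Δ →* P), Function.Surjective φ → SatisfiesLaw w P →
      ∃ F : Finset P, F.Nonempty ∧ F.card ≤ N ∧
        ((insert 1 (Z.image φ) * F).card : ℝ) ≤ (1 + ε) * F.card

/-- Some subgroup of finite index of `Δ` maps onto the free group of rank two. -/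
def Large (Δ : Type) [Group Δ] : Prop :=
  ∃ Λ : Subgroup Δ, Λ.FiniteIndex ∧ ∃ f : Λ →* FreeGroup (Fin 2), Function.Surjective f

/-- Q1 has a positive answer if and only if the finite Hurwitz groups with a law have Følner sets
of bounded size for their two generators; and the same for the finite quotients of any group
generated by a finite set `Z` and large. -/
theorem result : (Q1 ↔ FolnerHurwitz) ∧
    ∀ (Δ : Type) [Group Δ] (Z : Finset Δ), Subgroup.closure (Z : Set Δ) = ⊤ → Large Δ →
      (Q1 ↔ FolnerQuotients Δ Z) :=
  ⟨⟨Pool.Agent.W2helper38.UA.forward_hur, Pool.Agent.W2helper38.UA.backward_hur⟩,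
    fun Δ _ Z h1 h2 => ⟨Pool.Agent.W2helper38.UA.forward Δ Z,
      Pool.Agent.W2helper38.UA.backward Δ Z h1 h2⟩⟩

end Pool.Agent.Results.MP_f46765_al.HurwitzGroups
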